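import Pool.Agent.K3h16.SF.Stm

/-!
# A monic equation without constant term from the trace relation (brick KALG)
-/

set_option autoImplicit false

namespace Pool.Agent.K3h67.SF

open Pool.Agent.TH829.Kim
open Pool.Agent.K3h16.SF (S_KALG)

universe v

/-- `K_eq_poly` with a polynomial without constant term. -/
theorem K_eq_poly' {R : Type v} [Ring R] [Algebra ℚ R] (tr : R →ₗ[ℚ] ℚ) (η : ℚ) (h : R) (n : ℕ)
    (a : Fin (n + 1) → ℕ) (ha : ∀ i, 1 ≤ a i) :
    ∃ q : Polynomial ℚ, q.degree < ((∑ i, a i : ℕ) : WithBot ℕ) ∧ Polynomial.X ∣ q ∧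
      K tr η n (fun i => h ^ a i) =
        (η ^ n * n.factorial) • h ^ (∑ i, a i) + Polynomial.aeval h q := by
  induction n with
  | zero =>
    refine ⟨0, ?_, dvd_zero _, by simp [K]⟩
    rw [Polynomial.degree_zero]
    exact WithBot.bot_lt_coe _
  | succ n ih =>
    rw [K_succ]
    beta_reduce
    have h1 : ∀ i : Fin (n + 1), ∃ q : Polynomial ℚ, q.degree < ((∑ i, a i : ℕ) : WithBot ℕ) ∧
        Polynomial.X ∣ q ∧ K tr η n (Function.update (fun j : Fin (n + 1) => h ^ a j.succ) i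
          (h ^ a 0 * h ^ a i.succ)) = (η ^ n * n.factorial) • h ^ (∑ i, a i) +
            Polynomial.aeval h q := by
      intro i
      obtain ⟨q, hq, hqX, hq'⟩ := ih _ (update_pos ha i)
      rw [sum_update] at hq
      refine ⟨q, hq, hqX, ?_⟩
      rw [update_pow, hq', sum_update]
    choose q hq hqX hq' using h1
    obtain ⟨q0, hq0, hq0X, hq0'⟩ := ih (fun i => a i.succ) (fun i => ha _)
    have hlt : ∑ i : Fin (n + 1), a i.succ < ∑ i, a i := by
      rw [Fin.sum_univ_succ a]
      have := ha 0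
      omega
    have hpos : 0 < ∑ i : Fin (n + 1), a i.succ :=
      Finset.sum_pos (fun i _ => ha _) Finset.univ_nonempty
    have hlt' : ((∑ i : Fin (n + 1), a i.succ : ℕ) : WithBot ℕ) < ((∑ i, a i : ℕ) : WithBot ℕ) := by
      exact_mod_cast hlt
    refine ⟨tr (h ^ a 0) • (Polynomial.C (η ^ n * n.factorial : ℚ) *
      Polynomial.X ^ (∑ i : Fin (n + 1), a i.succ) + q0) + η • ∑ i, q i, ?_, ?_, ?_⟩
    · refine lt_of_le_of_lt (Polynomial.degree_add_le _ _) (max_lt ?_ ?_)
      · refine lt_of_le_of_lt (Polynomial.degree_smul_le _ _) ?_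
        refine lt_of_le_of_lt (Polynomial.degree_add_le _ _) (max_lt ?_ (hq0.trans hlt'))
        exact lt_of_le_of_lt (Polynomial.degree_C_mul_X_pow_le _ _) hlt'
      · refine lt_of_le_of_lt (Polynomial.degree_smul_le _ _) ?_
        refine lt_of_le_of_lt (Polynomial.degree_sum_le _ _) ?_
        rw [Finset.sup_lt_iff (WithBot.bot_lt_coe _)]
        exact fun i _ => hq i
    · refine dvd_add ?_ ?_
      · rw [Polynomial.smul_eq_C_mul]
        exact Dvd.dvd.mul_left (dvd_add (Dvd.dvd.mul_left (dvd_pow_self _ hpos.ne') _) hq0X) _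
      · rw [Polynomial.smul_eq_C_mul]
        exact Dvd.dvd.mul_left (Finset.dvd_sum fun i _ => hqX i) _
    · rw [hq0', Finset.sum_congr rfl (fun i _ => hq' i), Finset.sum_add_distrib, Finset.sum_const,
        Finset.card_univ, Fintype.card_fin, ← Nat.cast_smul_eq_nsmul ℚ, map_add, map_smul, map_add,
        map_smul, map_sum, map_mul (Polynomial.aeval h), map_pow (Polynomial.aeval h),
        Polynomial.aeval_X, Polynomial.aeval_C, ← Algebra.smul_def, smul_add η, smul_smul η]
      have e : (η ^ (n + 1) * ((n + 1).factorial : ℚ)) =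
          η * ((n + 1 : ℕ) * (η ^ n * (n.factorial : ℚ))) := by
        rw [Nat.factorial_succ, pow_succ]
        push_cast
        ring
      rw [e, smul_smul, mul_assoc η]
      abel

/-- **KALG** -/
theorem t_KALG : S_KALG.{v} := by
  intro R _ _ t η hη n f h0
  obtain ⟨q, hq, hqX, hq'⟩ := K_eq_poly' t η f n (fun _ => 1) (fun _ => le_rfl)
  simp only [pow_one, Finset.sum_const, Finset.card_univ, Fintype.card_fin, smul_eq_mul,
    mul_one] at hq hq'
  rw [h0] at hq'
  obtain ⟨c, hc⟩ : ∃ c : ℚ, c = η ^ n * n.factorial := ⟨_, rfl⟩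
  have hc0 : c ≠ 0 := by
    rw [hc]
    refine mul_ne_zero (pow_ne_zero _ ?_) (Nat.cast_ne_zero.2 n.factorial_ne_zero)
    rintro rfl
    rw [mul_zero] at hη
    exact zero_ne_one hη
  rw [← hc] at hq'
  have hdeg : (Polynomial.C c⁻¹ * q).degree < ((n + 1 : ℕ) : WithBot ℕ) := by
    rw [← Polynomial.smul_eq_C_mul]
    exact lt_of_le_of_lt (Polynomial.degree_smul_le _ _) hq
  refine ⟨Polynomial.X ^ (n + 1) + Polynomial.C c⁻¹ * q, Polynomial.monic_X_pow_add hdeg,
    dvd_add (dvd_pow_self _ n.succ_ne_zero) (Dvd.dvd.mul_left hqX _), ?_⟩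
  rw [map_add, map_pow, map_mul, Polynomial.aeval_X, Polynomial.aeval_C, ← Algebra.smul_def]
  have h2 : f ^ (n + 1) = c⁻¹ • (c • f ^ (n + 1)) := by
    rw [smul_smul, inv_mul_cancel₀ hc0, one_smul]
  rw [h2, ← smul_add, ← hq', smul_zero]

end Pool.Agent.K3h67.SF
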